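import Pool.Agent.Helper91.LC.Defs

/-!
Project LC, piece LC-18: reduction of Landau's problem to the normalised statement.
-/

set_option autoImplicit false

namespace Pool.Agent.Helper98.LC

open Complex Metric Set
open Pool.Agent.Helper91.LC

/-- The disc automorphism. -/
noncomputable def T (a z : ℂ) : ℂ := (z + a) / (1 + (starRingEnd ℂ) a * z)

lemma den_ne {a z : ℂ} (ha : ‖a‖ < 1) (hz : ‖z‖ < 1) : 1 + (starRingEnd ℂ) a * z ≠ 0 := by
  intro h
  have h1 : (starRingEnd ℂ) a * z = -1 := by linear_combination h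
  have h2 : ‖(starRingEnd ℂ) a * z‖ = 1 := by rw [h1]; simp
  rw [norm_mul, RCLike.norm_conj] at h2
  have h3 : ‖a‖ * ‖z‖ < 1 := by
    nlinarith [norm_nonneg a, norm_nonneg z]
  linarith

lemma norm_id (a z : ℂ) : ‖1 + (starRingEnd ℂ) a * z‖ ^ 2 - ‖z + a‖ ^ 2 =
    (1 - ‖a‖ ^ 2) * (1 - ‖z‖ ^ 2) := by
  simp only [← Complex.normSq_eq_norm_sq, Complex.normSq_apply]
  simp
  ring

lemma one_sub_T {a z : ℂ} (ha : ‖a‖ < 1) (hz : ‖z‖ < 1) :
    1 - ‖T a z‖ ^ 2 = (1 - ‖a‖ ^ 2) * (1 - ‖z‖ ^ 2) / ‖1 + (starRingEnd ℂ) a * z‖ ^ 2 := by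
  have h1 : ‖1 + (starRingEnd ℂ) a * z‖ ≠ 0 := norm_ne_zero_iff.2 (den_ne ha hz)
  rw [← norm_id, T, norm_div, div_pow, sub_div, div_self (pow_ne_zero 2 h1)]

lemma T_mem {a z : ℂ} (ha : ‖a‖ < 1) (hz : ‖z‖ < 1) : ‖T a z‖ < 1 := by
  have h := one_sub_T ha hz
  have h1 : 0 < ‖1 + (starRingEnd ℂ) a * z‖ := norm_pos_iff.2 (den_ne ha hz)
  have h2 : 0 < 1 - ‖a‖ ^ 2 := by nlinarith [norm_nonneg a]
  have h3 : 0 < 1 - ‖z‖ ^ 2 := by nlinarith [norm_nonneg z]
  have h4 : 0 < 1 - ‖T a z‖ ^ 2 := by rw [h]; positivity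
  nlinarith [norm_nonneg (T a z)]

lemma T_hasDeriv {a z : ℂ} (ha : ‖a‖ < 1) (hz : ‖z‖ < 1) :
    HasDerivAt (T a) (((1 - ‖a‖ ^ 2 : ℝ) : ℂ) / (1 + (starRingEnd ℂ) a * z) ^ 2) z := by
  have hne := den_ne ha hz
  have h1 : HasDerivAt (fun z : ℂ => z + a) 1 z := (hasDerivAt_id z).add_const a
  have h2 : HasDerivAt (fun z : ℂ => 1 + (starRingEnd ℂ) a * z) ((starRingEnd ℂ) a) z := by
    simpa using ((hasDerivAt_id z).const_mul ((starRingEnd ℂ) a)).const_add 1
  have h3 := h1.div h2 hne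
  refine h3.congr_deriv ?_
  congr 1
  have h4 : (starRingEnd ℂ) a * a = ((‖a‖ ^ 2 : ℝ) : ℂ) := by
    rw [mul_comm, Complex.mul_conj, Complex.normSq_eq_norm_sq]
  push_cast at h4 ⊢
  linear_combination -h4

lemma T_deriv_norm {a z : ℂ} (ha : ‖a‖ < 1) (hz : ‖z‖ < 1) :
    ‖((1 - ‖a‖ ^ 2 : ℝ) : ℂ) / (1 + (starRingEnd ℂ) a * z) ^ 2‖ * (1 - ‖z‖ ^ 2) =
      1 - ‖T a z‖ ^ 2 := by
  have h2 : 0 < 1 - ‖a‖ ^ 2 := by nlinarith [norm_nonneg a]
  rw [one_sub_T ha hz, norm_div, norm_pow, Complex.norm_real, Real.norm_of_nonneg h2.le]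
  ring

theorem reduction
    (hmain : ∀ (F : ℂ → ℂ) (A : ℝ) (E : Set ℂ), Good F → 0 < A → Cov F A E →
      Real.log (2 / A) ≤ 0.0005 → False)
    {f : ℂ → ℂ} (hf : DifferentiableOn ℂ f (ball 0 1)) (h1 : deriv f 0 = 1) :
    ∃ w : ℂ, ball w (2001 / 4000) ⊆ f '' ball 0 1 := by
  by_contra hcon
  push Not at hcon
  set R : ℝ := 2001 / 4000 with hR
  have hRpos : 0 < R := by rw [hR]; norm_num
  have hRC : (R : ℂ) ≠ 0 := by exact_mod_cast hRpos.ne'
  set Ω : Set ℂ := f '' ball 0 1 with hΩ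
  -- open mapping
  have hfa : AnalyticOnNhd ℂ f (ball 0 1) := hf.analyticOnNhd isOpen_ball
  have hopen : IsOpen Ω := by
    rcases hfa.is_constant_or_isOpen (convex_ball _ _).isPreconnected with ⟨w, hw⟩ | h
    · exfalso
      have h2 : f =ᶠ[nhds (0 : ℂ)] fun _ => w := by
        filter_upwards [isOpen_ball.mem_nhds (mem_ball_self one_pos : (0 : ℂ) ∈ ball 0 1)]
          with z hz using hw z hz
      have h3 := h2.deriv_eq
      rw [h1, deriv_const] at h3
      exact one_ne_zero h3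
    · exact h _ Subset.rfl isOpen_ball
  set E0 : Set ℂ := {e | (R : ℂ) * e ∉ Ω} with hE0
  have hE0c : IsClosed E0 := by
    have : E0 = (fun e : ℂ => (R : ℂ) * e) ⁻¹' Ωᶜ := rfl
    rw [this]
    exact hopen.isClosed_compl.preimage (continuous_const.mul continuous_id)
  have hnear : ∀ w : ℂ, ∃ e ∈ E0, dist w e < 1 := by
    intro w
    obtain ⟨p, hp, hpΩ⟩ := Set.not_subset.1 (hcon ((R : ℂ) * w))
    refine ⟨p / R, ?_, ?_⟩
    · change (R : ℂ) * (p / R) ∉ Ω
      rwa [mul_div_cancel₀ _ hRC]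
    · rw [mem_ball, dist_eq_norm] at hp
      rw [dist_comm, dist_eq_norm]
      have h2 : p / R - w = (p - R * w) / R := by field_simp
      rw [h2, norm_div, Complex.norm_real, Real.norm_of_nonneg hRpos.le, div_lt_one hRpos]
      exact hp
  -- the scale
  set s : ℝ := 2 * R * Real.exp (-0.0005) with hs
  have hspos : 0 < s := by rw [hs]; positivity
  have hs1 : s < 1 := by
    have h2 : (0.0005 : ℝ) + 1 < Real.exp 0.0005 := Real.add_one_lt_exp (by norm_num)
    rw [hs, Real.exp_neg, ← div_eq_mul_inv, div_lt_one (Real.exp_pos _), hR]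
    linarith
  have hsC : (s : ℂ) ≠ 0 := by exact_mod_cast hspos.ne'
  have hsz : ∀ z : ℂ, ‖z‖ ≤ 1 → (s : ℂ) * z ∈ ball (0 : ℂ) 1 := by
    intro z hz
    rw [mem_ball_zero_iff, norm_mul, Complex.norm_real, Real.norm_of_nonneg hspos.le]
    nlinarith [norm_nonneg z]
  set g : ℂ → ℂ := fun z => f (s * z) / R with hg
  have hgd : ∀ z : ℂ, ‖z‖ ≤ 1 → HasDerivAt g (s * deriv f (s * z) / R) z := by
    intro z hz
    have h2 : HasDerivAt f (deriv f (s * z)) (s * z) :=
      (hf.differentiableAt (isOpen_ball.mem_nhds (hsz z hz))).hasDerivAt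
    have h3 : HasDerivAt (fun z : ℂ => (s : ℂ) * z) s z := by
      simpa using (hasDerivAt_id z).const_mul (s : ℂ)
    have h4 := (h2.comp z h3).div_const (R : ℂ)
    refine h4.congr_deriv ?_
    ring
  -- the maximum
  set φ : ℂ → ℝ := fun z => ‖(s : ℂ) * deriv f (s * z) / R‖ * (1 - ‖z‖ ^ 2) with hφ
  have hφc : ContinuousOn φ (closedBall 0 1) := by
    have h2 : ContinuousOn (deriv f) (ball 0 1) :=
      (hf.deriv isOpen_ball).continuousOn
    have h3 : ContinuousOn (fun z : ℂ => deriv f (s * z)) (closedBall 0 1) := by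
      refine h2.comp (by fun_prop) ?_
      intro z hz
      exact hsz z (by simpa using hz)
    exact ((continuousOn_const.mul h3).div_const _).norm.mul (by fun_prop)
  obtain ⟨z0, hz0, hmax⟩ := (isCompact_closedBall (0 : ℂ) 1).exists_isMaxOn
    ⟨0, by simp⟩ hφc
  set A : ℝ := φ z0 with hA
  have hA0 : s / R ≤ A := by
    have h2 : φ 0 ≤ φ z0 := hmax (by simp : (0 : ℂ) ∈ closedBall 0 1)
    have h3 : φ 0 = s / R := by
      simp only [hφ, mul_zero, h1, norm_zero]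
      rw [mul_one, norm_div, Complex.norm_real, Complex.norm_real,
        Real.norm_of_nonneg hspos.le, Real.norm_of_nonneg hRpos.le]
      ring
    rw [h3] at h2
    exact h2
  have hApos : 0 < A := lt_of_lt_of_le (by positivity) hA0
  have hz0n : ‖z0‖ < 1 := by
    have h2 : ‖z0‖ ≤ 1 := by simpa using hz0
    rcases h2.lt_or_eq with h3 | h3
    · exact h3
    · exfalso
      have h4 : A = 0 := by rw [hA]; simp only [hφ, h3]; ring
      linarith
  -- the normalised function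
  set G : ℂ → ℂ := fun z => g (T z0 z) with hG
  have hGd : ∀ z : ℂ, ‖z‖ < 1 → HasDerivAt G ((s * deriv f (s * T z0 z) / R) *
      (((1 - ‖z0‖ ^ 2 : ℝ) : ℂ) / (1 + (starRingEnd ℂ) z0 * z) ^ 2)) z := by
    intro z hz
    exact (hgd _ (T_mem hz0n hz).le).comp z (T_hasDeriv hz0n hz)
  have hT0 : T z0 0 = z0 := by simp [T]
  set D0 : ℂ := (s * deriv f (s * T z0 0) / R) *
      (((1 - ‖z0‖ ^ 2 : ℝ) : ℂ) / (1 + (starRingEnd ℂ) z0 * 0) ^ 2) with hD0
  have hD0n : ‖D0‖ = A := by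
    have h2 : 0 < 1 - ‖z0‖ ^ 2 := by nlinarith [norm_nonneg z0]
    rw [hD0, hT0, norm_mul, hA]
    simp only [hφ, mul_zero, add_zero, one_pow, div_one]
    rw [Complex.norm_real, Real.norm_of_nonneg h2.le]
  have hD0ne : D0 ≠ 0 := by
    rw [← norm_pos_iff, hD0n]; exact hApos
  have hAC : (A : ℂ) ≠ 0 := by exact_mod_cast hApos.ne'
  set u : ℂ := D0 / A with hu
  have hun : ‖u‖ = 1 := by
    rw [hu, norm_div, hD0n, Complex.norm_real, Real.norm_of_nonneg hApos.le, div_self hApos.ne']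
  have hune : u ≠ 0 := by
    rw [← norm_pos_iff, hun]; exact one_pos
  have hAu : (A : ℂ) * u = D0 := by rw [hu, mul_div_cancel₀ _ hAC]
  set F : ℂ → ℂ := fun z => (G z - G 0) / D0 with hF
  have hFd : ∀ z : ℂ, ‖z‖ < 1 → HasDerivAt F (((s * deriv f (s * T z0 z) / R) *
      (((1 - ‖z0‖ ^ 2 : ℝ) : ℂ) / (1 + (starRingEnd ℂ) z0 * z) ^ 2)) / D0) z := by
    intro z hz
    exact ((hGd z hz).sub_const (G 0)).div_const D0
  refine hmain F A {e | G 0 + u * e ∈ E0} ⟨?_, ?_, ?_, ?_⟩ hApos ⟨?_, ?_, ?_, ?_⟩ ?_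
  · intro z hz
    exact (hFd z (by simpa using hz)).differentiableAt.differentiableWithinAt
  · simp [hF]
  · rw [(hFd 0 (by simp)).deriv]
    exact div_self hD0ne
  · intro z hz
    have hz' : ‖z‖ < 1 := by simpa using hz
    rw [(hFd z hz').deriv, norm_div, norm_mul, hD0n, div_mul_eq_mul_div, div_le_one hApos,
      mul_assoc, T_deriv_norm hz0n hz']
    have h2 : T z0 z ∈ closedBall (0 : ℂ) 1 := by
      simpa using (T_mem hz0n hz').le
    exact hmax h2
  · exact hE0c.preimage (continuous_const.add (continuous_const.mul continuous_id))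
  · obtain ⟨e, he, -⟩ := hnear 0
    refine ⟨(e - G 0) / u, ?_⟩
    change G 0 + u * ((e - G 0) / u) ∈ E0
    rw [mul_div_cancel₀ _ hune]
    simpa using he
  · intro w
    obtain ⟨e, he, hd⟩ := hnear (G 0 + u * w)
    have h2 : (e - G 0) / u ∈ {e | G 0 + u * e ∈ E0} := by
      change G 0 + u * ((e - G 0) / u) ∈ E0
      rw [mul_div_cancel₀ _ hune]
      simpa using he
    refine (infDist_le_dist_of_mem h2).trans ?_
    have h3 : dist w ((e - G 0) / u) = dist (G 0 + u * w) e := by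
      rw [dist_eq_norm, dist_eq_norm]
      have h4 : G 0 + u * w - e = u * (w - (e - G 0) / u) := by
        field_simp
        ring
      rw [h4, norm_mul, hun, one_mul]
    rw [h3]
    exact hd.le
  · intro z hz hmem
    have hz' : ‖z‖ < 1 := by simpa using hz
    have h2 : G 0 + u * ((A : ℂ) * F z) = G z := by
      have h3 : u * ((A : ℂ) * F z) = D0 * F z := by rw [← hAu]; ring
      rw [h3]
      simp only [hF]
      rw [mul_div_cancel₀ _ hD0ne]
      ring
    change G 0 + u * ((A : ℂ) * F z) ∈ E0 at hmem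
    rw [h2] at hmem
    apply hmem
    refine ⟨s * T z0 z, hsz _ (T_mem hz0n hz').le, ?_⟩
    simp only [hG, hg]
    rw [mul_div_cancel₀ _ hRC]
  · have h2 : 2 / A ≤ 2 * R / s := by
      rw [div_le_div_iff₀ hApos hspos]
      rw [div_le_iff₀ hRpos] at hA0
      linarith
    have h3 : 2 * R / s = Real.exp 0.0005 := by
      rw [hs, Real.exp_neg]
      have := Real.exp_pos (0.0005 : ℝ)
      field_simp
    calc Real.log (2 / A) ≤ Real.log (2 * R / s) := Real.log_le_log (by positivity) h2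
      _ = 0.0005 := by rw [h3, Real.log_exp]

end Pool.Agent.Helper98.LC
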